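import Pool.Agent.Work.MP_14a437_ag.K.Basic

/-!
# E/Rank  (M) : the Euler characteristic is additive on distinguished triangles and symmetric

Proof of `chi_tri_right`.  Write `T : X -f-> Y -g-> Z -h-> X[1]`, and for `n : ℤ` let
`x n = dim Hom(W,X[n])`, `y n`, `z n` similarly.  Let `a n`, `b n`, `c n` be the ranks of the linear
maps  `Hom(W,X[n]) → Hom(W,Y[n])`, `Hom(W,Y[n]) → Hom(W,Z[n])`, `Hom(W,Z[n]) → Hom(W,X[n][1])`
(postcomposition with `f[n]`, `g[n]` and the third map of the shifted triangle).  The shifted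
triangle `(Triangle.shiftFunctor C n).obj T` is distinguished (`Triangle.shift_distinguished`; its
maps are `n.negOnePow •` the shifts, signs do not change kernels and ranges), so
`Triangle.coyoneda_exact₂/₃/₁` give: `y n = a n + b n`, `z n = b n + c n`,
`x (n+1) = c n + a (n+1)` (rank-nullity `LinearMap.finrank_range_add_finrank_ker`, using
`Hom(W,X[n][1]) ≅ Hom(W,X[n+1])` by composition with `(shiftFunctorAdd C n 1)`).
Hence `y n - x n - z n = - c (n-1) - c n`, and `∑ (-1)^n (c (n-1) + c n) = 0` by reindexing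
(all functions have finite support by `hom_bounded`; `finsum_add_distrib`,
`finsum_comp_equiv`, `Int.negOnePow_succ`).  All Hom spaces are finite dimensional by `hom_finite`
(apply it to `W` and the object `X⟦n⟧`).

Proof of `chi_symm`: reindex by `n ↦ 2 - n`, `Int.negOnePow_sub`/`Int.negOnePow_even`, and `serre`.
`chi_tri_left` follows from the two others.
-/

open CategoryTheory CategoryTheory.Limits CategoryTheory.Pretriangulated

universe v u

namespace MP_14a437_ag

variable {C : Type u} [Category.{v} C] [Preadditive C] [HasZeroObject C] [HasShift C ℤ]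
  [∀ n : ℤ, (shiftFunctor C n).Additive] [Pretriangulated C]
  {k : Type*} [Field k] [Linear k C]

private noncomputable def rk (k : Type*) [Field k] [Linear k C] (W : C) {A B : C} (m : A ⟶ B) : ℕ :=
  Module.finrank k (LinearMap.range (Linear.rightComp k W m))

omit [HasZeroObject C] [HasShift C ℤ] [∀ n : ℤ, (shiftFunctor C n).Additive] [Pretriangulated C] in
private theorem exact_dim (W : C) {A B D : C} (m : A ⟶ B) (p : B ⟶ D) [Module.Finite k (W ⟶ B)]
    (hex : ∀ f : W ⟶ B, f ≫ p = 0 → ∃ g : W ⟶ A, f = g ≫ m) (h0 : m ≫ p = 0) :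
    Module.finrank k (W ⟶ B) = rk k W m + rk k W p := by
  have h1 : LinearMap.ker (Linear.rightComp k W p) = LinearMap.range (Linear.rightComp k W m) := by
    ext f
    rw [LinearMap.mem_ker, LinearMap.mem_range]
    constructor
    · intro hf
      obtain ⟨g, hg⟩ := hex f hf
      exact ⟨g, hg.symm⟩
    · rintro ⟨g, rfl⟩
      show (g ≫ m) ≫ p = 0
      rw [Category.assoc, h0, comp_zero]
  have h2 := LinearMap.finrank_range_add_finrank_ker (Linear.rightComp k W p)
  rw [h1] at h2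
  unfold rk
  omega

omit [HasZeroObject C] [HasShift C ℤ] [∀ n : ℤ, (shiftFunctor C n).Additive] [Pretriangulated C] in
private noncomputable def homE (k : Type*) [Field k] [Linear k C] (W : C) {B B' : C} (e : B ≅ B') :
    (W ⟶ B) ≃ₗ[k] (W ⟶ B') :=
  LinearEquiv.ofLinearMap (Linear.rightComp k W e.hom) (Linear.rightComp k W e.inv)
    (by
      ext f
      show (f ≫ e.inv) ≫ e.hom = f
      rw [Category.assoc, e.inv_hom_id, Category.comp_id])
    (by
      ext f
      show (f ≫ e.hom) ≫ e.inv = f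
      rw [Category.assoc, e.hom_inv_id, Category.comp_id])

omit [HasZeroObject C] [HasShift C ℤ] [∀ n : ℤ, (shiftFunctor C n).Additive] [Pretriangulated C] in
private theorem rk_conj (W : C) {A B A' B' : C} (eA : A ≅ A') (eB : B ≅ B') (m : A ⟶ B)
    (m' : A' ⟶ B') (h : m ≫ eB.hom = eA.hom ≫ m') : rk k W m = rk k W m' := by
  have h1 : LinearMap.range (Linear.rightComp k W m') =
      (LinearMap.range (Linear.rightComp k W m)).map ((homE k W eB : (W ⟶ B) ≃ₗ[k] (W ⟶ B')) :
        (W ⟶ B) →ₗ[k] (W ⟶ B')) := by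
    ext f
    rw [LinearMap.mem_range, Submodule.mem_map]
    constructor
    · rintro ⟨g, rfl⟩
      refine ⟨(g ≫ eA.inv) ≫ m, ⟨g ≫ eA.inv, rfl⟩, ?_⟩
      show ((g ≫ eA.inv) ≫ m) ≫ eB.hom = g ≫ m'
      rw [Category.assoc, h, Category.assoc, eA.inv_hom_id_assoc]
    · rintro ⟨y, ⟨g, rfl⟩, rfl⟩
      refine ⟨g ≫ eA.hom, ?_⟩
      show (g ≫ eA.hom) ≫ m' = (g ≫ m) ≫ eB.hom
      rw [Category.assoc, Category.assoc, h]
  unfold rk
  rw [h1, LinearEquiv.finrank_map_eq]

omit [HasZeroObject C] [HasShift C ℤ] [∀ n : ℤ, (shiftFunctor C n).Additive] [Pretriangulated C] in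
private theorem rk_neg (W : C) {A B : C} (m : A ⟶ B) : rk k W (-m) = rk k W m := by
  have h1 : LinearMap.range (Linear.rightComp k W (-m)) = LinearMap.range (Linear.rightComp k W m) := by
    ext f
    rw [LinearMap.mem_range, LinearMap.mem_range]
    constructor
    · rintro ⟨g, rfl⟩
      refine ⟨-g, ?_⟩
      show (-g) ≫ m = g ≫ (-m)
      rw [Preadditive.neg_comp, Preadditive.comp_neg]
    · rintro ⟨g, rfl⟩
      refine ⟨-g, ?_⟩
      show (-g) ≫ (-m) = g ≫ m
      rw [Preadditive.neg_comp, Preadditive.comp_neg, neg_neg]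
  unfold rk
  rw [h1]

omit [HasZeroObject C] [HasShift C ℤ] [∀ n : ℤ, (shiftFunctor C n).Additive] [Pretriangulated C] in
private theorem rk_units (W : C) {A B : C} (u : ℤˣ) (m : A ⟶ B) : rk k W (u • m) = rk k W m := by
  rcases Int.units_eq_one_or u with rfl | rfl
  · rw [one_smul]
  · rw [Units.neg_smul, one_smul, rk_neg]

omit [HasZeroObject C] [Pretriangulated C] in
private theorem rk_units_shift (W : C) {A B : C} (u : ℤˣ) (m : A ⟶ B) :
    rk k W ((u • m)⟦(1 : ℤ)⟧') = rk k W (m⟦(1 : ℤ)⟧') := by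
  rcases Int.units_eq_one_or u with rfl | rfl
  · rw [one_smul]
  · rw [Units.neg_smul, one_smul, Functor.map_neg, rk_neg]

omit [HasZeroObject C] [∀ n : ℤ, (shiftFunctor C n).Additive] [Pretriangulated C] in
private theorem rk_shift_shift (W : C) {A B : C} (m : A ⟶ B) (n : ℤ) :
    rk k W ((m⟦n⟧')⟦(1 : ℤ)⟧') = rk k W (m⟦(n + 1 : ℤ)⟧') := by
  symm
  exact rk_conj W ((shiftFunctorAdd C n 1).app A) ((shiftFunctorAdd C n 1).app B) _ _
    ((shiftFunctorAdd C n 1).hom.naturality m)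

private theorem levels (hCY : IsCY2 C k) (W : C) (T : Triangle C) (hT : T ∈ distTriang C) (n : ℤ) :
    Module.finrank k (W ⟶ T.obj₂⟦n⟧) = rk k W (T.mor₁⟦n⟧') + rk k W (T.mor₂⟦n⟧') ∧
    Module.finrank k (W ⟶ T.obj₃⟦n⟧) =
      rk k W (T.mor₂⟦n⟧') + rk k W ((Triangle.shiftFunctor C n).obj T).mor₃ ∧
    Module.finrank k (W ⟶ T.obj₁⟦(n + 1 : ℤ)⟧) =
      rk k W ((Triangle.shiftFunctor C n).obj T).mor₃ + rk k W (T.mor₁⟦(n + 1 : ℤ)⟧') := by
  haveI := hCY.hom_finite
  have hT' := Triangle.shift_distinguished T hT n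
  have e1 : rk k W ((Triangle.shiftFunctor C n).obj T).mor₁ = rk k W (T.mor₁⟦n⟧') :=
    rk_units W n.negOnePow (T.mor₁⟦n⟧')
  have e2 : rk k W ((Triangle.shiftFunctor C n).obj T).mor₂ = rk k W (T.mor₂⟦n⟧') :=
    rk_units W n.negOnePow (T.mor₂⟦n⟧')
  have e3 : rk k W (((Triangle.shiftFunctor C n).obj T).mor₁⟦(1 : ℤ)⟧') =
      rk k W (T.mor₁⟦(n + 1 : ℤ)⟧') :=
    (rk_units_shift W n.negOnePow (T.mor₁⟦n⟧')).trans (rk_shift_shift W T.mor₁ n)
  have h1 := exact_dim (k := k) W ((Triangle.shiftFunctor C n).obj T).mor₁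
    ((Triangle.shiftFunctor C n).obj T).mor₂
    (fun f hf => Triangle.coyoneda_exact₂ _ hT' f hf) (comp_distTriang_mor_zero₁₂ _ hT')
  have h2 := exact_dim (k := k) W ((Triangle.shiftFunctor C n).obj T).mor₂
    ((Triangle.shiftFunctor C n).obj T).mor₃
    (fun f hf => Triangle.coyoneda_exact₃ _ hT' f hf) (comp_distTriang_mor_zero₂₃ _ hT')
  have h3 := exact_dim (k := k) W ((Triangle.shiftFunctor C n).obj T).mor₃
    (((Triangle.shiftFunctor C n).obj T).mor₁⟦(1 : ℤ)⟧')
    (fun f hf => Triangle.coyoneda_exact₁ _ hT' f hf) (comp_distTriang_mor_zero₃₁ _ hT')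
  rw [e1, e2] at h1
  rw [e2] at h2
  rw [e3] at h3
  refine ⟨h1, h2, ?_⟩
  rw [← h3]
  exact LinearEquiv.finrank_eq (homE k W ((shiftFunctorAdd C n 1).app T.obj₁))

private theorem supp_fin (hCY : IsCY2 C k) (W X : C) :
    (Function.support fun n : ℤ => (n.negOnePow : ℤ) * (Module.finrank k (W ⟶ X⟦n⟧) : ℤ)).Finite := by
  refine (hCY.hom_bounded W X).subset ?_
  intro n hn
  rw [Function.mem_support] at hn
  by_contra hcon
  apply hn
  have h1 : ∀ f : W ⟶ X⟦n⟧, f = 0 := by
    intro f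
    by_contra hf
    exact hcon ⟨f, hf⟩
  have h2 : Subsingleton (W ⟶ X⟦n⟧) := ⟨fun f g => by rw [h1 f, h1 g]⟩
  rw [Module.finrank_zero_of_subsingleton, Nat.cast_zero, mul_zero]

theorem chi_tri_right (hCY : IsCY2 C k) (W : C) (T : Triangle C) (hT : T ∈ distTriang C) :
    chi k W T.obj₂ = chi k W T.obj₁ + chi k W T.obj₃ := by
  set c : ℤ → ℤ := fun n => (rk k W ((Triangle.shiftFunctor C n).obj T).mor₃ : ℤ) with hc
  set u : ℤ → ℤ := fun n => (n.negOnePow : ℤ) * c n with hu
  have hufin : (Function.support u).Finite := by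
    refine (supp_fin hCY W T.obj₃).subset ?_
    intro n hn
    rw [Function.mem_support] at hn ⊢
    intro h0
    apply hn
    have h1 : Module.finrank k (W ⟶ T.obj₃⟦n⟧) = 0 := by
      rcases mul_eq_zero.1 h0 with h | h
      · exact absurd h (Units.ne_zero _)
      · exact_mod_cast h
    have h2 := (levels hCY W T hT n).2.1
    have h3 : rk k W ((Triangle.shiftFunctor C n).obj T).mor₃ = 0 := by omega
    show (n.negOnePow : ℤ) * c n = 0
    rw [hc]
    simp only
    rw [h3, Nat.cast_zero, mul_zero]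
  have hu1fin : (Function.support fun n => u (n - 1)).Finite := by
    have h1 : (Function.support fun n => u (n - 1)) = (fun n : ℤ => n + 1) '' Function.support u := by
      ext n
      rw [Function.mem_support, Set.mem_image]
      constructor
      · intro h
        exact ⟨n - 1, h, by ring⟩
      · rintro ⟨m, hm, rfl⟩
        rw [add_sub_cancel_right]
        exact hm
    rw [h1]
    exact hufin.image _
  have hshift : ∑ᶠ n : ℤ, u (n - 1) = ∑ᶠ n : ℤ, u n :=
    finsum_comp_equiv (Equiv.subRight (1 : ℤ)) (f := u)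
  have hterm : ∀ n : ℤ, (n.negOnePow : ℤ) * (Module.finrank k (W ⟶ T.obj₂⟦n⟧) : ℤ) + u n =
      ((n.negOnePow : ℤ) * (Module.finrank k (W ⟶ T.obj₁⟦n⟧) : ℤ) +
        (n.negOnePow : ℤ) * (Module.finrank k (W ⟶ T.obj₃⟦n⟧) : ℤ)) + u (n - 1) := by
    intro n
    obtain ⟨h1, h2, -⟩ := levels hCY W T hT n
    obtain ⟨-, -, h3⟩ := levels hCY W T hT (n - 1)
    rw [sub_add_cancel] at h3
    have h4 : ((n - 1).negOnePow : ℤ) = - (n.negOnePow : ℤ) := by
      have h5 : n.negOnePow = - (n - 1).negOnePow := by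
        rw [← Int.negOnePow_succ, sub_add_cancel]
      rw [h5]
      simp
    rw [h1, h2, h3]
    simp only [hu, hc]
    rw [h4]
    push_cast
    ring
  have h6 : ∑ᶠ n : ℤ, ((n.negOnePow : ℤ) * (Module.finrank k (W ⟶ T.obj₂⟦n⟧) : ℤ) + u n) =
      ∑ᶠ n : ℤ, (((n.negOnePow : ℤ) * (Module.finrank k (W ⟶ T.obj₁⟦n⟧) : ℤ) +
        (n.negOnePow : ℤ) * (Module.finrank k (W ⟶ T.obj₃⟦n⟧) : ℤ)) + u (n - 1)) :=
    finsum_congr hterm
  have hf13 : (Function.support fun n : ℤ => (n.negOnePow : ℤ) * (Module.finrank k (W ⟶ T.obj₁⟦n⟧) : ℤ) +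
      (n.negOnePow : ℤ) * (Module.finrank k (W ⟶ T.obj₃⟦n⟧) : ℤ)).Finite :=
    ((supp_fin hCY W T.obj₁).union (supp_fin hCY W T.obj₃)).subset (Function.support_add _ _)
  rw [finsum_add_distrib (supp_fin hCY W T.obj₂) hufin, finsum_add_distrib hf13 hu1fin,
    finsum_add_distrib (supp_fin hCY W T.obj₁) (supp_fin hCY W T.obj₃), hshift] at h6
  exact add_right_cancel h6

theorem chi_symm (hCY : IsCY2 C k) (X Y : C) : chi k X Y = chi k Y X := by
  unfold chi
  rw [← finsum_comp_equiv (Equiv.subLeft (2 : ℤ))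
    (f := fun n : ℤ => (n.negOnePow : ℤ) * (Module.finrank k (Y ⟶ X⟦n⟧) : ℤ))]
  refine finsum_congr fun n => ?_
  rw [hCY.serre X Y n]
  have h1 : (2 - n).negOnePow = n.negOnePow := by
    rw [Int.negOnePow_sub, Int.negOnePow_even 2 (by decide), one_mul]
  show _ = ((2 - n).negOnePow : ℤ) * (Module.finrank k (Y ⟶ X⟦(2 - n : ℤ)⟧) : ℤ)
  rw [h1]

theorem chi_tri_left (hCY : IsCY2 C k) (W : C) (T : Triangle C) (hT : T ∈ distTriang C) :
    chi k T.obj₂ W = chi k T.obj₁ W + chi k T.obj₃ W := by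
  rw [chi_symm hCY T.obj₂, chi_symm hCY T.obj₁, chi_symm hCY T.obj₃, chi_tri_right hCY W T hT]

end MP_14a437_ag
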