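import Pool.Agent.Work.MP_14a437_ag.E.Rank

/-!
# E/Form : the Euler form on the Grothendieck group  (done by helper76, FIXED)
-/

open CategoryTheory CategoryTheory.Limits CategoryTheory.Pretriangulated

universe v u

namespace MP_14a437_ag

variable {C : Type u} [Category.{v} C] [Preadditive C] [HasZeroObject C] [HasShift C ℤ]
  [∀ n : ℤ, (shiftFunctor C n).Additive] [Pretriangulated C]
  {k : Type*} [Field k] [Linear k C]

/-- The Euler form as a biadditive form on the Grothendieck group. -/
noncomputable def eulerForm (hCY : IsCY2 C k) : K0 C →+ K0 C →+ ℤ :=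
  K0.lift (fun X => K0.lift (fun Y => chi k X Y) (fun T hT => chi_tri_right hCY X T hT))
    (fun T hT => K0.hom_ext fun Y => by
      simp only [K0.lift_cl, AddMonoidHom.add_apply]
      exact chi_tri_left hCY Y T hT)

@[simp] theorem eulerForm_cl (hCY : IsCY2 C k) (X Y : C) :
    eulerForm hCY (cl X) (cl Y) = chi k X Y := by
  simp [eulerForm]

theorem eulerForm_symm (hCY : IsCY2 C k) (x y : K0 C) :
    eulerForm hCY x y = eulerForm hCY y x := by
  obtain ⟨X, rfl⟩ := exists_obj x
  obtain ⟨Y, rfl⟩ := exists_obj y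
  rw [eulerForm_cl, eulerForm_cl, chi_symm hCY]

/-- The radical of the Euler form. -/
noncomputable def radical (hCY : IsCY2 C k) : AddSubgroup (K0 C) := (eulerForm hCY).ker

theorem mem_radical (hCY : IsCY2 C k) (x : K0 C) :
    x ∈ radical hCY ↔ ∀ y, eulerForm hCY x y = 0 := by
  rw [radical, AddMonoidHom.mem_ker]
  exact ⟨fun h y => by rw [h]; rfl, fun h => AddMonoidHom.ext h⟩

theorem mem_radical' (hCY : IsCY2 C k) (x : K0 C) :
    x ∈ radical hCY ↔ ∀ y, eulerForm hCY y x = 0 := by
  rw [mem_radical]
  exact forall_congr' fun y => by rw [eulerForm_symm]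

end MP_14a437_ag
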